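import Pool.Agent.V11166.Bip.States

/-!
# MP_43f1fb_co — the majority relation of `D_{n,p}` is the linear order of `u_p`

For `1 ≤ p ≤ n/2`, `n ≥ 3`, let `D n p = Pre(C(i_p))` be the set of all products of initial segments of words
in the commutation class of the word `i_p = c_odd c_even c_odd ⋯ c_even` (`2p` blocks), and let
`u n p` be the product of its first `p` blocks.  Then the majority relation of the uniform tally
on `D n p` is the total order `<_{u_p}`, with no ties.

Proof idea: elements of `D_{n,p}` are parametrised by `±1`-walks `t_1, …, t_{n-1}` with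
`t_j ≡ j (mod 2)` in the strip `[-1, 2p]`; the pair crossing at the heap element (row `r`,
column `j`) is inverted iff `r ≤ t_j`.  Reflecting the excursion of the walk around column `j`
about the level `p-1` (if `r ≤ p`), resp. `p` (if `r > p`), is an injection which is not onto.
-/

namespace BipartiteCoxeter

open Equiv

/-- `u_p`, the product of the first `p` blocks. -/
def u (n p : ℕ) : Perm (Fin n) := wordProd n (blocks n p)

/-- `N(a,b)`: the number of `x ∈ E` with `a <_x b`. -/
noncomputable def tally {n : ℕ} (E : Set (Perm (Fin n))) (a b : Fin n) : ℕ :=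
  {x ∈ E | Before x a b}.ncard

/-- The majority relation `a ≺_E b`. -/
def Maj {n : ℕ} (E : Set (Perm (Fin n))) (a b : Fin n) : Prop := tally E b a < tally E a b

lemma u_cross (n p : ℕ) (hpn : 2 * p ≤ n) : Cross n p (T n (p + 1) 0) (u n p) := by
  obtain ⟨g, hs⟩ := blocks_good n p p (by omega)
  have := (main_induct n p hpn _ g).2
  rw [hs] at this
  exact this

lemma blocks_prefix (n p k : ℕ) : blocks n p <+: blocks n (p + k) := by
  induction k with
  | zero => exact List.prefix_rfl
  | succ k ih =>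
    rw [← Nat.add_assoc, blocks_succ]
    exact ih.trans (List.prefix_append _ _)

lemma u_mem (n p : ℕ) : u n p ∈ D n p := by
  refine ⟨blocks n (2 * p), Relation.ReflTransGen.refl, blocks n p, ?_, rfl⟩
  rw [two_mul]
  exact blocks_prefix n p p

lemma main_lt (n p : ℕ) (hn : 3 ≤ n) (hp : 1 ≤ p) (hpn : 2 * p ≤ n) (a b : Fin n)
    (hab : a < b) :
    (Before (u n p) a b ∧ tally (D n p) b a < tally (D n p) a b) ∨
    (Before (u n p) b a ∧ tally (D n p) a b < tally (D n p) b a) := by
  have hne : a ≠ b := ne_of_lt hab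
  by_cases hex : ∃ (r : ℤ) (j : ℕ), 1 ≤ j ∧ j < n ∧ 1 ≤ r ∧ r ≤ 2 * p ∧ (r - j) % 2 = 0 ∧
      V n (r - 1) j = a + 1 ∧ V n (r - 1) (j + 1) = b + 1
  · obtain ⟨r, j, h1, h2, h3, h4, h5, h6, h7⟩ := hex
    have E1 : {x ∈ D n p | Before x b a} = Phi n p '' {t ∈ S n p | r ≤ t j} := by
      ext x
      rw [D_eq n p hpn]
      constructor
      · rintro ⟨⟨t, ht, rfl⟩, hx⟩
        refine ⟨t, ⟨ht, ?_⟩, rfl⟩
        exact (before_iff n p hpn t _ (Phi_spec n p hpn t ht).2.1 a b hab r j h1 h2 h3 h4 h5 h6
          h7).mp hx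
      · rintro ⟨t, ⟨ht, hx⟩, rfl⟩
        exact ⟨⟨t, ht, rfl⟩, (before_iff n p hpn t _ (Phi_spec n p hpn t ht).2.1 a b hab r j h1 h2
          h3 h4 h5 h6 h7).mpr hx⟩
    have E2 : {x ∈ D n p | Before x a b} = Phi n p '' {t ∈ S n p | t j < r} := by
      ext x
      rw [D_eq n p hpn]
      constructor
      · rintro ⟨⟨t, ht, rfl⟩, hx⟩
        refine ⟨t, ⟨ht, ?_⟩, rfl⟩
        rw [← not_le]
        intro hle
        have := (before_iff n p hpn t _ (Phi_spec n p hpn t ht).2.1 a b hab r j h1 h2 h3 h4 h5 h6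
          h7).mpr hle
        exact (not_before _ a b hne).mpr this hx
      · rintro ⟨t, ⟨ht, hx⟩, rfl⟩
        refine ⟨⟨t, ht, rfl⟩, ?_⟩
        rw [← not_before _ b a hne.symm]
        intro h
        have := (before_iff n p hpn t _ (Phi_spec n p hpn t ht).2.1 a b hab r j h1 h2 h3 h4 h5 h6
          h7).mp h
        exact absurd this (not_le.mpr hx)
    have N1 : tally (D n p) b a = {t ∈ S n p | r ≤ t j}.ncard := by
      unfold tally
      rw [E1, Set.ncard_image_of_injOn ((Phi_inj n p hpn).mono (fun t ht => ht.1))]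
    have N2 : tally (D n p) a b = {t ∈ S n p | t j < r}.ncard := by
      unfold tally
      rw [E2, Set.ncard_image_of_injOn ((Phi_inj n p hpn).mono (fun t ht => ht.1))]
    have hu := before_iff n p hpn _ _ (u_cross n p hpn) a b hab r j h1 h2 h3 h4 h5 h6 h7
    rw [T_in n _ _ j h1 h2, if_neg (by omega)] at hu
    by_cases hr : r ≤ p
    · right
      refine ⟨?_, ?_⟩
      · rw [hu]; split_ifs <;> omega
      · rw [N1, N2]
        exact count_low n p hn hp hpn r j h1 h2 h3 hr h5
    · left
      refine ⟨?_, ?_⟩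
      · rw [← not_before _ b a hne.symm, hu]
        split_ifs <;> omega
      · rw [N1, N2]
        exact count_high n p hn hp hpn r j h1 h2 (by omega) h4 h5
  · left
    have hall : ∀ x ∈ D n p, Before x a b := by
      intro x hx
      rw [D_eq n p hpn] at hx
      obtain ⟨t, ht, rfl⟩ := hx
      rw [← not_before _ b a hne.symm]
      intro h
      obtain ⟨r, j, h1, h2, h3, h4, h5, h6, h7, _⟩ :=
        ((Phi_spec n p hpn t ht).2.1 a b hab).mp h
      exact hex ⟨r, j, h1, h2, h3, h4, h5, h6, h7⟩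
    refine ⟨hall _ (u_mem n p), ?_⟩
    have Z : {x ∈ D n p | Before x b a} = ∅ := by
      rw [Set.eq_empty_iff_forall_notMem]
      rintro x ⟨hx, hb⟩
      exact (not_before x a b hne).mpr hb (hall x hx)
    unfold tally
    rw [Z, Set.ncard_empty]
    rw [Set.ncard_pos (Set.toFinite _)]
    exact ⟨u n p, u_mem n p, hall _ (u_mem n p)⟩

end BipartiteCoxeter

namespace Pool.Agent.Results.MP_43f1fb_co.MajorityOrder

open BipartiteCoxeter

/-- For all `n ≥ 3` and `1 ≤ p ≤ n/2`, the majority relation of `D_{n,p}` is the linear order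
`<_{u_p}`, and no two distinct elements are tied. -/
theorem result (n p : ℕ) (hn : 3 ≤ n) (hp : 1 ≤ p) (hpn : 2 * p ≤ n) (a b : Fin n)
    (hab : a ≠ b) :
    (Maj (D n p) a b ↔ Before (u n p) a b) ∧ tally (D n p) a b ≠ tally (D n p) b a := by
  rcases lt_or_gt_of_ne hab with h | h
  · rcases main_lt n p hn hp hpn a b h with ⟨h1, h2⟩ | ⟨h1, h2⟩
    · exact ⟨⟨fun _ => h1, fun _ => h2⟩, by omega⟩
    · refine ⟨⟨fun h3 => ?_, fun h3 => ?_⟩, by omega⟩
      · unfold Maj at h3; omega
      · exact absurd h3 ((not_before _ a b hab).mpr h1)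
  · rcases main_lt n p hn hp hpn b a h with ⟨h1, h2⟩ | ⟨h1, h2⟩
    · refine ⟨⟨fun h3 => ?_, fun h3 => ?_⟩, by omega⟩
      · unfold Maj at h3; omega
      · exact absurd h3 ((not_before _ a b hab).mpr h1)
    · exact ⟨⟨fun _ => h1, fun _ => h2⟩, by omega⟩

end Pool.Agent.Results.MP_43f1fb_co.MajorityOrder
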